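import Pool.Agent.N292.PK.Main

/-! A countable peak set for `A_{1/2}` which is not a zero set for the Gevrey class `G_{1/2}`. -/

namespace Pool.Agent.Results.MP_129fce_an.PeakSetNotGevreyZeroSet

theorem result : ∃ E : Set ℂ, E.Countable ∧ PK.IsPeakSet (1 / 2) E ∧
    ¬ PK.IsGevreyZeroSet (1 / 2) E :=
  ⟨PK.E, PK.countable_E, PK.isPeakSet_E, PK.not_gevrey_E⟩

end Pool.Agent.Results.MP_129fce_an.PeakSetNotGevreyZeroSet
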